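import Pool.Agent.H24.MV.ThetaUnbounded

/-!
# The threshold number is not bounded by a function of the threshold dimension

For every `m ≥ 2` we exhibit finite graphs `G` with threshold dimension exactly `m` and arbitrarily
large threshold number.

The graph: `V = X ∪ Y`, both `X` and `Y` are copies of `{0, …, N-1}^m`; `X` is a clique, `Y` is
independent and `x ∼ y` iff `y i ≤ x i` for some coordinate `i`.
It is the union of the `m` threshold graphs `H i` (`x ∼ y` iff `y i ≤ x i`), and it contains `m`
edges no two of which can lie in a common threshold subgraph. A counting argument (`key`) bounds
its threshold number from below.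
-/

set_option autoImplicit false

namespace Pool.Agent.Results.MP_105209_co.ThetaUnbounded

open Pool.H24.MV.ThetaUnbounded

open Finset

/-- **For which `m` is the threshold number bounded on the class of finite graphs of threshold
dimension `m`? Exactly for `m ≤ 1`.** In particular (take `m = 2`) there is no function `f` with
`Θ(G) ≤ f (t(G))` for all finite graphs `G`. -/
theorem result : ∀ m : ℕ,
    (∃ B : ℕ, ∀ (V : Type) [Fintype V] (G : SimpleGraph V),
      thresholdDim G = m → thresholdNumber G ≤ B) ↔ m ≤ 1 :=
  Pool.H24.MV.ThetaUnbounded.result

end Pool.Agent.Results.MP_105209_co.ThetaUnbounded
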